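import Pool.Agent.Lib.H63K.Fin2
import Pool.Agent.Lib.H63K.Fin3

/-!
# Deterministic k-page migration is O(k)-competitive (MP_8dbae4_lc, Q1)

The definitions `H63K.move`, `H63K.dmin` are in `Pool/Agent/Lib/H63K/Defs.lean`, the definitions
`H63K.algCost`, `H63K.schedCost`, `H63K.opt`, `H63K.Competitive`, `H63K.cdet` in
`Pool/Agent/Lib/H63K/Stat.lean`. A proof on paper is in `Pool/Agent/Lib/H63K/PROOF.md`.
-/

namespace Pool.Agent.Results.MP_8dbae4_lc.LinearRatio

open H63K

universe u

/-- For every `k ≥ 1` there is, for every metric space, every `D ≥ 1` and every initial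
configuration, a deterministic online algorithm for `k`-page migration which is
`2408832 k`-competitive. So the infimum `cdet k` of the ratios `c` that can be reached (for all
metric spaces and all `D ≥ 1`), which is the infimum of a set bounded below, is at most
`2408832 k`. -/
theorem result : ∀ k : ℕ, 1 ≤ k →
    Competitive.{u} k (2408832 * k) ∧ BddBelow {c : ℝ | Competitive.{u} k c} ∧
      cdet.{u} k ≤ 2408832 * k := by
  intro k hk
  have h1 : Competitive.{u} k (2408832 * k) := competitive k hk
  have h2 : BddBelow {c : ℝ | Competitive.{u} k c} :=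
    ⟨0, fun c hc => competitive_nonneg k hk c hc⟩
  exact ⟨h1, h2, csInf_le h2 h1⟩

end Pool.Agent.Results.MP_8dbae4_lc.LinearRatio
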